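import Pool.Agent.OVW.Lib2
import Pool.Agent.OVW.StmtsH

/-!
# Block H: segments of functions, normal form of `RIn R G`
-/

namespace Pool.Agent.OVW

section

variable {M : Type} [Arith M]

/-- The initial segment of length `m` of the sequence with length and code `s`. -/
noncomputable def rst (s m : M) : M := pr m (least fun c => ∀ i < m, bet c i = bet (sn s) i)

@[simp] theorem fs_rst (s m : M) : fs (rst s m) = m := by simp [rst]

variable {R : Set (M → M)} [IsWorld R] {α β : Type} [Cod M α] [Cod M β]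

@[fun_prop] theorem Rec.rst {f g : α → M} (hf : Rec R f) (hg : Rec R g) :
    Rec R (fun a => rst (f a) (g a)) := by
  unfold OVW.rst
  apply Rec.pr hg
  apply Rec.least (P := fun a c => ∀ i < g a, OVW.bet c i = OVW.bet (OVW.sn (f a)) i)
  · fun_prop
  · intro a
    exact ⟨OVW.sn (f a), fun i _ => rfl⟩

theorem seg_spec [HasWorld M] {G : M → M} (hG : Segd G) (n : M) :
    ∃ c, seg G n = pr n c ∧ Codes G n c ∧ ∀ c' < c, ¬ Codes G n c' := by
  obtain ⟨R, hR⟩ := HasWorld.ex (M := M)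
  obtain ⟨c0, h0⟩ := hG n
  have hP : Rec R (fun c : M => ∀ i < n, bet c i = bet c0 i) := by fun_prop
  obtain ⟨c, hc, hc'⟩ := Rec.lnp hP ⟨c0, fun i _ => rfl⟩
  have h : ∃ c, Codes G n c ∧ ∀ c' < c, ¬ Codes G n c' := by
    refine ⟨c, fun i hi => (hc i hi).trans (h0 i hi), fun c' hc1 h1 => hc' c' hc1 fun i hi => ?_⟩
    rw [h1 i hi, h0 i hi]
  unfold seg
  rw [dif_pos h]
  exact ⟨_, rfl, h.choose_spec⟩

theorem fs_seg [HasWorld M] {G : M → M} (hG : Segd G) (n : M) : fs (seg G n) = n := by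
  obtain ⟨c, h, -⟩ := seg_spec hG n
  rw [h, fs_pr]

theorem bet_seg [HasWorld M] {G : M → M} (hG : Segd G) {n i : M} (hi : i < n) :
    bet (sn (seg G n)) i = G i := by
  obtain ⟨c, h, h1, -⟩ := seg_spec hG n
  rw [h, sn_pr]
  exact h1 i hi

theorem rst_seg [HasWorld M] {G : M → M} (hG : Segd G) {n m : M} (hm : m ≤ n) :
    rst (seg G n) m = seg G m := by
  obtain ⟨c, h, h1, h2⟩ := seg_spec hG m
  rw [h]
  unfold rst
  congr 1
  apply least_eq
  · intro i hi
    rw [h1 i hi, bet_seg hG (hi.trans_le hm)]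
  · intro c' hc' h3
    refine h2 c' hc' fun i hi => ?_
    rw [h3 i hi, bet_seg hG (hi.trans_le hm)]

/-- Monotone approximation along the segments of `G`. -/
structure Mono (R : Set (M → M)) (G : M → M) (ψ : M → M → M) : Prop where
  rc : Rec R (fun p : M × M => ψ p.1 p.2)
  mono : ∀ a n n', n ≤ n' → ψ a (seg G n) ≠ 0 → ψ a (seg G n') = ψ a (seg G n)

/-- The place of the first non zero value. -/
noncomputable def hatI (φ : M → M → M) (a s : M) : M :=
  least fun m => φ a (rst s m) ≠ 0 ∨ fs s < m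

open Classical in
/-- The first non zero value. -/
noncomputable def hat (φ : M → M → M) (a s : M) : M :=
  if hatI φ a s ≤ fs s then φ a (rst s (hatI φ a s)) else 0

theorem rec_hatI {φ : M → M → M} (h : Rec R (fun p : M × M => φ p.1 p.2)) :
    Rec R (fun p : M × M => hatI φ p.1 p.2) := by
  unfold hatI
  apply Rec.least (P := fun (p : M × M) (m : M) => φ p.1 (rst p.2 m) ≠ 0 ∨ fs p.2 < m)
  · have : Rec R (fun p : (M × M) × M => φ p.1.1 (rst p.1.2 p.2)) :=
      Rec.comp2 (h := φ) h (by fun_prop) (by fun_prop)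
    fun_prop
  · intro p
    exact ⟨fs p.2 + 1, Or.inr (lt_succ.2 le_rfl)⟩

theorem rec_hat {φ : M → M → M} (h : Rec R (fun p : M × M => φ p.1 p.2)) :
    Rec R (fun p : M × M => hat φ p.1 p.2) := by
  unfold hat
  have h1 := rec_hatI h
  have : Rec R (fun p : M × M => φ p.1 (rst p.2 (hatI φ p.1 p.2))) :=
    Rec.comp2 (h := φ) h (by fun_prop) (by fun_prop)
  fun_prop

theorem hat_eq [HasWorld M] {φ : M → M → M} {G : M → M} (hG : Segd G) {a n N : M}
    (h1 : φ a (seg G n) ≠ 0) (h2 : ∀ m < n, φ a (seg G m) = 0) :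
    hat φ a (seg G N) = if n ≤ N then φ a (seg G n) else 0 := by
  by_cases hN : n ≤ N
  · have e : hatI φ a (seg G N) = n := by
      apply least_eq
      · rw [rst_seg hG hN]
        exact Or.inl h1
      · intro m hm
        rw [rst_seg hG (hm.le.trans hN), fs_seg hG]
        push Not
        exact ⟨h2 m hm, hm.le.trans hN⟩
    unfold hat
    rw [e, fs_seg hG, if_pos hN, if_pos hN, rst_seg hG hN]
  · have e : hatI φ a (seg G N) = N + 1 := by
      push Not at hN
      apply least_eq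
      · rw [fs_seg hG]
        exact Or.inr (lt_succ.2 le_rfl)
      · intro m hm
        have hm' := lt_succ.1 hm
        rw [rst_seg hG hm', fs_seg hG]
        push Not
        exact ⟨h2 m (hm'.trans_lt hN), hm'⟩
    unfold hat
    rw [e, fs_seg hG, if_neg hN, if_neg]
    exact not_le.2 (lt_succ.2 le_rfl)

theorem exists_first {φ : M → M → M} (h : Rec R (fun p : M × M => φ p.1 p.2)) {G : M → M}
    (hG : Segd G) {a N : M} (h1 : φ a (seg G N) ≠ 0) :
    ∃ n ≤ N, φ a (seg G n) ≠ 0 ∧ ∀ m < n, φ a (seg G m) = 0 := by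
  haveI : HasWorld M := ⟨R, inferInstance⟩
  have h0 : Rec R (fun m : M => φ a (rst (seg G N) m)) :=
    Rec.comp2 (h := φ) h (by fun_prop) (by fun_prop)
  have hP : Rec R (fun m : M => m ≤ N ∧ φ a (rst (seg G N) m) ≠ 0) := by fun_prop
  obtain ⟨n, ⟨hn, hn1⟩, hn2⟩ := Rec.lnp hP ⟨N, le_rfl, by rwa [rst_seg hG le_rfl]⟩
  rw [rst_seg hG hn] at hn1
  refine ⟨n, hn, hn1, fun m hm => ?_⟩
  by_contra hc
  refine hn2 m hm ⟨hm.le.trans hn, ?_⟩
  rwa [rst_seg hG (hm.le.trans hn)]

theorem hat_mono {φ : M → M → M} (h : Rec R (fun p : M × M => φ p.1 p.2)) {G : M → M}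
    (hG : Segd G) : Mono R G (hat φ) := by
  haveI : HasWorld M := ⟨R, inferInstance⟩
  refine ⟨rec_hat h, fun a n n' hn h1 => ?_⟩
  by_cases h2 : ∃ N, φ a (seg G N) ≠ 0
  · obtain ⟨N, hN⟩ := h2
    obtain ⟨n0, -, h3, h4⟩ := exists_first h hG hN
    rw [hat_eq hG h3 h4] at h1 ⊢
    rw [hat_eq hG h3 h4]
    have h5 : n0 ≤ n := by
      by_contra hc
      rw [if_neg hc] at h1
      exact h1 rfl
    rw [if_pos h5, if_pos (h5.trans hn)]
  · push Not at h2
    exfalso
    apply h1
    have e : hatI φ a (seg G n) = n + 1 := by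
      apply least_eq
      · rw [fs_seg hG]
        exact Or.inr (lt_succ.2 le_rfl)
      · intro m hm
        have hm' := lt_succ.1 hm
        rw [rst_seg hG hm', fs_seg hG]
        push Not
        exact ⟨h2 m, hm'⟩
    unfold hat
    rw [e, fs_seg hG, if_neg]
    exact not_le.2 (lt_succ.2 le_rfl)

/-- Normal form of `RIn R G`, weak version. -/
theorem rin_of_lim {G g : M → M} (hG : Segd G) {φ : M → M → M}
    (h : Rec R (fun p : M × M => φ p.1 p.2)) (h1 : ∀ a, ∃ n, φ a (seg G n) ≠ 0)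
    (h2 : ∀ a n, φ a (seg G n) ≠ 0 → φ a (seg G n) = g a + 1) : g ∈ RIn R G := by
  refine ⟨fun z => φ (fs z) (sn z), ?_, fun a => ?_⟩
  · exact Rec.comp2 (h := φ) (α := M) h (by fun_prop) (by fun_prop)
  · obtain ⟨N, hN⟩ := h1 a
    obtain ⟨n, -, hn, hn'⟩ := exists_first h hG hN
    refine ⟨n, ?_, fun m hm => ?_⟩
    · simp only [fs_pr, sn_pr]
      exact h2 a n hn
    · simp only [fs_pr, sn_pr]
      exact hn' m hm

/-- Normal form of `RIn R G`, strong version. -/
theorem rin_mono {G g : M → M} (hG : Segd G) (h : g ∈ RIn R G) :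
    ∃ ψ : M → M → M, Mono R G ψ ∧ (∀ a, ∃ n, ψ a (seg G n) = g a + 1) ∧
      ∀ a n, ψ a (seg G n) ≠ 0 → ψ a (seg G n) = g a + 1 := by
  haveI : HasWorld M := ⟨R, inferInstance⟩
  obtain ⟨φ, hφ, h⟩ := h
  have hr : Rec R (fun p : M × M => φ (pr p.1 p.2)) :=
    Rec.comp (g := φ) (rec_iff.2 hφ) (by fun_prop)
  refine ⟨hat (fun a s => φ (pr a s)), hat_mono hr hG, fun a => ?_, fun a n hn => ?_⟩
  · obtain ⟨n, h1, h2⟩ := h a
    refine ⟨n, ?_⟩
    rw [hat_eq hG (φ := fun a s => φ (pr a s)) (a := a) (n := n) (by rw [h1]; simp) h2,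
      if_pos le_rfl]
    exact h1
  · obtain ⟨n0, h1, h2⟩ := h a
    rw [hat_eq hG (φ := fun a s => φ (pr a s)) (a := a) (n := n0) (by rw [h1]; simp) h2] at hn ⊢
    by_cases h3 : n0 ≤ n
    · rw [if_pos h3]
      exact h1
    · rw [if_neg h3] at hn
      exact absurd rfl hn

end

/-- Functions which are approximated along the segments of `G` are in `RIn R G`. -/
theorem stmtLIM : StmtLIM := by
  intro M _ R _ G g hG
  constructor
  · intro h
    obtain ⟨ψ, h1, h2, h3⟩ := rin_mono hG h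
    refine ⟨fun z => ψ (fs z) (sn z), ?_, fun a => ?_, fun a n => ?_⟩
    · exact Rec.comp2 (h := ψ) (α := M) h1.rc (by fun_prop) (by fun_prop)
    · obtain ⟨n, hn⟩ := h2 a
      refine ⟨n, ?_⟩
      simp only [fs_pr, sn_pr]
      rw [hn]
      simp
    · simp only [fs_pr, sn_pr]
      exact h3 a n
  · rintro ⟨φ, hφ, h1, h2⟩
    exact rin_of_lim hG (φ := fun a s => φ (pr a s))
      (Rec.comp (g := φ) (rec_iff.2 hφ) (by fun_prop)) h1 h2

theorem stmtCTE : StmtCTE := by
  intro M _ R G hR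
  have hinj : ∀ g ∈ RIn R G, ∃ φ ∈ R, ∀ a, ∃ n, φ (pr a (seg G n)) = g a + 1 ∧
      ∀ m < n, φ (pr a (seg G m)) = 0 := fun g hg => hg
  choose! F hF hF2 using hinj
  have hsub : RIn R G ⊆ F ⁻¹' R := fun g hg => hF g hg
  have hi : Set.InjOn F (RIn R G) := by
    intro g hg g' hg' e
    funext a
    obtain ⟨n, h1, h2⟩ := hF2 g hg a
    obtain ⟨n', h1', h2'⟩ := hF2 g' hg' a
    rw [← e] at h1' h2'
    have hn : n = n' := by
      rcases lt_trichotomy n n' with h | h | h
      · have := h2' n h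
        rw [h1] at this
        simp at this
      · exact h
      · have := h2 n' h
        rw [h1'] at this
        simp at this
    rw [hn, h1'] at h1
    exact (add_right_cancel h1).symm
  exact Set.MapsTo.countable_of_injOn (fun g hg => hF g hg) hi hR

end Pool.Agent.OVW
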