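import Pool.Agent.OVW.Lib3
import Pool.Agent.OVW.H.Seg

/-!
# Block H: the extension of a World by a function
-/

namespace Pool.Agent.OVW

section

variable {M : Type} [Arith M] {R : Set (M → M)} [IsWorld R] {G : M → M}
variable {α β : Type} [Cod M α] [Cod M β]

/-- `Σ₁(G)` induction. -/
theorem sigG_ind (hB : BCA R G) {P : M → M → Prop} (hP : Rec R (fun p : M × M => P p.1 p.2))
    (h0 : ∃ n, P 0 (seg G n)) (hs : ∀ x, (∃ n, P x (seg G n)) → ∃ n, P (x + 1) (seg G n)) :
    ∀ x, ∃ n, P x (seg G n) := by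
  intro x
  have hφ : Rec R (fun z : M => (enc (P (fs z) (sn z)) : M)) :=
    Rec.enc (Rec.comp2 (h := P) hP (by fun_prop) (by fun_prop))
  obtain ⟨c, hc⟩ := hB _ hφ (x + 1)
  have e : ∀ a, (∃ n, (enc (P (fs (pr a (seg G n))) (sn (pr a (seg G n)))) : M) ≠ 0) ↔
      ∃ n, P a (seg G n) := by
    intro a
    simp only [fs_pr, sn_pr, ne_eq, enc_eq_zero, not_not]
  simp only [enc_self, dec_self] at hc
  have hQ : Rec R (fun a : M => a ≤ x → bet c a = 1) := by fun_prop
  have h1 : ∀ a, a ≤ x → bet c a = 1 := by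
    apply Rec.induction hQ
    · intro _
      rw [hc 0 (lt_succ.2 zero_le), if_pos ((e 0).2 h0)]
    · intro a ih ha
      have ha' : a ≤ x := le_self_add.trans ha
      have h2 := ih ha'
      rw [hc a (lt_succ.2 ha')] at h2
      have h3 : ∃ n, P a (seg G n) := by
        by_contra hn
        rw [if_neg (fun h => hn ((e a).1 h))] at h2
        simp at h2
      rw [hc (a + 1) (lt_succ.2 ha), if_pos ((e _).2 (hs a h3))]
  have h4 := h1 x le_rfl
  rw [hc x (lt_succ.2 le_rfl)] at h4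
  by_contra hn
  rw [if_neg (fun h => hn ((e x).1 h))] at h4
  simp at h4

variable [HasWorld M]

/-- Collection for monotone approximations. -/
theorem Mono.collect (hB : BCA R G) {ψ : M → M → M} (h : Mono R G ψ)
    (ht : ∀ a, ∃ n, ψ a (seg G n) ≠ 0) {f : M → M} (hf : Rec R f) (N : M) :
    ∃ n, ∀ j < N, ψ (f j) (seg G n) ≠ 0 := by
  have hr := h.rc
  apply sigG_ind (R := R) hB (P := fun N s => ∀ j < N, ψ (f j) s ≠ 0)
  · fun_prop
  · exact ⟨0, fun j hj => absurd hj (by simp)⟩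
  · rintro x ⟨n, hn⟩
    obtain ⟨n', hn'⟩ := ht (f x)
    refine ⟨max n n', fun j hj => ?_⟩
    rcases (lt_succ.1 hj).lt_or_eq with h1 | h1
    · rw [h.mono _ _ _ (le_max_left n n') (hn j h1)]
      exact hn j h1
    · rw [h1, h.mono _ _ _ (le_max_right n n') hn']
      exact hn'

theorem sub_rin (hG : Segd G) : R ⊆ RIn R G := by
  intro f hf
  have hf' : Rec R f := hf
  refine rin_of_lim hG (φ := fun a _ => f a + 1) (by fun_prop) (fun a => ⟨0, by simp⟩)
    (fun a n _ => rfl)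

theorem mem_rin (hG : Segd G) : G ∈ RIn R G := by
  classical
  refine rin_of_lim (R := R) hG
    (φ := fun a s => if a < fs s then bet (sn s) a + 1 else 0) (by fun_prop) (fun a => ?_)
    (fun a n h => ?_)
  · refine ⟨a + 1, ?_⟩
    rw [fs_seg hG, if_pos (lt_succ.2 le_rfl)]
    simp
  · rw [fs_seg hG] at h ⊢
    by_cases ha : a < n
    · rw [if_pos ha, bet_seg hG ha]
    · rw [if_neg ha] at h
      exact absurd rfl h

theorem rin_comp (hG : Segd G) {f g : M → M} (hf : f ∈ RIn R G) (hg : g ∈ RIn R G) :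
    (fun x => f (g x)) ∈ RIn R G := by
  classical
  obtain ⟨ψ, h1, h2, h3⟩ := rin_mono hG hf
  obtain ⟨χ, k1, k2, k3⟩ := rin_mono hG hg
  have hk := k1.rc
  have hh := h1.rc
  refine rin_of_lim hG (φ := fun a s => if χ a s = 0 then 0 else ψ (χ a s - 1) s)
    (by fun_prop) (fun a => ?_) (fun a n h => ?_)
  · obtain ⟨n, hn⟩ := k2 a
    obtain ⟨n', hn'⟩ := h2 (g a)
    refine ⟨max n n', ?_⟩
    have e1 : χ a (seg G (max n n')) = g a + 1 := by
      rw [k1.mono _ _ _ (le_max_left n n') (by rw [hn]; simp), hn]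
    have e2 : ψ (g a) (seg G (max n n')) = f (g a) + 1 := by
      rw [h1.mono _ _ _ (le_max_right n n') (by rw [hn']; simp), hn']
    rw [e1, if_neg (by simp), add_tsub_cancel_right, e2]
    simp
  · by_cases hc : χ a (seg G n) = 0
    · rw [if_pos hc] at h
      exact absurd rfl h
    · rw [if_neg hc] at h ⊢
      rw [k3 a n hc, add_tsub_cancel_right] at h ⊢
      exact h3 _ _ h

theorem rin_pair (hG : Segd G) {f g : M → M} (hf : f ∈ RIn R G) (hg : g ∈ RIn R G) :
    (fun x => pr (f x) (g x)) ∈ RIn R G := by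
  classical
  obtain ⟨ψ, h1, h2, h3⟩ := rin_mono hG hf
  obtain ⟨χ, k1, k2, k3⟩ := rin_mono hG hg
  have hk := k1.rc
  have hh := h1.rc
  refine rin_of_lim hG (φ := fun a s => if χ a s = 0 ∨ ψ a s = 0 then 0 else
    pr (ψ a s - 1) (χ a s - 1) + 1) (by fun_prop) (fun a => ?_) (fun a n h => ?_)
  · obtain ⟨n, hn⟩ := k2 a
    obtain ⟨n', hn'⟩ := h2 a
    refine ⟨max n n', ?_⟩
    have e1 : χ a (seg G (max n n')) = g a + 1 := by
      rw [k1.mono _ _ _ (le_max_left n n') (by rw [hn]; simp), hn]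
    have e2 : ψ a (seg G (max n n')) = f a + 1 := by
      rw [h1.mono _ _ _ (le_max_right n n') (by rw [hn']; simp), hn']
    rw [e1, e2, if_neg (by simp)]
    simp
  · by_cases hc : χ a (seg G n) = 0 ∨ ψ a (seg G n) = 0
    · rw [if_pos hc] at h
      exact absurd rfl h
    · rw [if_neg hc]
      push Not at hc
      rw [k3 a n hc.1, h3 a n hc.2, add_tsub_cancel_right, add_tsub_cancel_right]

theorem rin_sig (hG : Segd G) {f : M → M} (hf : f ∈ RIn R G) :
    ∃ P : M → M → Prop, Rec R (fun p : M × M => P p.1 p.2) ∧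
      ∀ a, (∃ n, f (pr a n) = 0) ↔ ∃ n, P a (seg G n) := by
  obtain ⟨ψ, h1, h2, h3⟩ := rin_mono hG hf
  refine ⟨fun a s => ∃ k ≤ fs s, ψ (pr a k) s = 1, ?_, fun a => ?_⟩
  · have hr := h1.rc
    fun_prop
  · constructor
    · rintro ⟨k, hk⟩
      obtain ⟨n, hn⟩ := h2 (pr a k)
      refine ⟨max n k, k, ?_, ?_⟩
      · rw [fs_seg hG]
        exact le_max_right n k
      · rw [h1.mono _ _ _ (le_max_left n k) (by rw [hn]; simp), hn, hk, zero_add]
    · rintro ⟨n, k, -, hk⟩
      refine ⟨k, ?_⟩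
      have h4 := h3 (pr a k) n (by rw [hk]; simp)
      rw [hk] at h4
      have h5 : 0 + 1 = f (pr a k) + 1 := by rw [zero_add]; exact h4
      exact (add_right_cancel h5).symm

theorem rin_mu (hG : Segd G) (hB : BCA R G) {f : M → M} (hf : f ∈ RIn R G)
    (ht : ∀ a, ∃ n, f (pr a n) = 0) :
    ∃ g ∈ RIn R G, ∀ a, f (pr a (g a)) = 0 ∧ ∀ m < g a, f (pr a m) ≠ 0 := by
  classical
  obtain ⟨ψ, h1, h2, h3⟩ := rin_mono hG hf
  have ht' : ∀ a, ∃ n, ψ a (seg G n) ≠ 0 := fun a => by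
    obtain ⟨n, hn⟩ := h2 a
    exact ⟨n, by rw [hn]; simp⟩
  have hcol : ∀ a N, ∃ n, ∀ j < N, ψ (pr a j) (seg G n) ≠ 0 := fun a N =>
    h1.collect hB ht' (f := fun j => pr a j) (by fun_prop) N
  -- the least zero
  have hg : ∀ a, ∃ k, f (pr a k) = 0 ∧ ∀ m < k, f (pr a m) ≠ 0 := by
    intro a
    obtain ⟨k1, hk1⟩ := ht a
    obtain ⟨n, hn⟩ := hcol a (k1 + 1)
    have hr := h1.rc
    have hval : ∀ k ≤ k1, ψ (pr a k) (seg G n) = f (pr a k) + 1 := fun k hk =>
      h3 _ _ (hn k (lt_succ.2 hk))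
    have hQ : Rec R (fun k : M => k ≤ k1 ∧ ψ (pr a k) (seg G n) = 1) := by fun_prop
    obtain ⟨k, ⟨hk, hk2⟩, hk3⟩ := Rec.lnp hQ ⟨k1, le_rfl, by rw [hval k1 le_rfl, hk1, zero_add]⟩
    refine ⟨k, ?_, fun m hm hm2 => ?_⟩
    · rw [hval k hk] at hk2
      have h5 : f (pr a k) + 1 = 0 + 1 := by rw [zero_add]; exact hk2
      exact add_right_cancel h5
    · have hmk : m ≤ k1 := hm.le.trans hk
      exact hk3 m hm ⟨hmk, by rw [hval m hmk, hm2, zero_add]⟩
  choose g hg1 hg2 using hg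
  refine ⟨g, ?_, fun a => ⟨hg1 a, hg2 a⟩⟩
  -- the search
  let K : M → M → M := fun a s => least (fun k => ψ (pr a k) s ≤ 1 ∨ fs s < k)
  have hQ : Rec R (fun p : (M × M) × M => ψ (pr p.1.1 p.2) p.1.2 ≤ 1 ∨ fs p.1.2 < p.2) := by
    have hr := h1.rc
    fun_prop
  have hex : ∀ p : M × M, ∃ k, ψ (pr p.1 k) p.2 ≤ 1 ∨ fs p.2 < k := fun p =>
    ⟨fs p.2 + 1, Or.inr (lt_succ.2 le_rfl)⟩
  have hKr : Rec R (fun p : M × M => K p.1 p.2) :=
    Rec.least (P := fun (p : M × M) k => ψ (pr p.1 k) p.2 ≤ 1 ∨ fs p.2 < k) hQ hex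
  have hKs : ∀ a s, (ψ (pr a (K a s)) s ≤ 1 ∨ fs s < K a s) ∧
      ∀ m < K a s, ¬ (ψ (pr a m) s ≤ 1 ∨ fs s < m) := by
    intro a s
    apply Rec.least_spec (R := R) (P := fun k => ψ (pr a k) s ≤ 1 ∨ fs s < k)
    · have hr := h1.rc
      fun_prop
    · exact hex (a, s)
  have hψ := h1.rc
  refine rin_of_lim hG (φ := fun a s => if K a s ≤ fs s ∧ ψ (pr a (K a s)) s = 1 then
    K a s + 1 else 0) (by fun_prop) (fun a => ?_) (fun a n h => ?_)
  · obtain ⟨n, hn⟩ := hcol a (g a + 1)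
    let N := max n (g a)
    have hval : ∀ k ≤ g a, ψ (pr a k) (seg G N) = f (pr a k) + 1 := by
      intro k hk
      have h5 := hn k (lt_succ.2 hk)
      rw [h1.mono _ _ _ (le_max_left n (g a)) h5]
      exact h3 _ _ h5
    have hK : K a (seg G N) = g a := by
      apply least_eq
      · rw [hval _ le_rfl, hg1]
        left
        simp
      · intro m hm
        rw [hval m hm.le, fs_seg hG]
        push Not
        constructor
        · have h6 : f (pr a m) ≠ 0 := hg2 a m hm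
          calc (1 : M) = 0 + 1 := (zero_add 1).symm
            _ < f (pr a m) + 1 := by
              have := pos_iff.2 h6
              gcongr
        · exact hm.le.trans (le_max_right _ _)
    refine ⟨N, ?_⟩
    rw [hK, fs_seg hG, hval _ le_rfl, hg1, zero_add, if_pos ⟨le_max_right _ _, rfl⟩]
    simp
  · by_cases hc : K a (seg G n) ≤ fs (seg G n) ∧ ψ (pr a (K a (seg G n))) (seg G n) = 1
    · rw [if_pos hc]
      congr 1
      obtain ⟨hc1, hc2⟩ := hc
      have h4 := h3 (pr a (K a (seg G n))) n (by rw [hc2]; simp)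
      rw [hc2] at h4
      have h5 : f (pr a (K a (seg G n))) = 0 := by
        have h5 : 0 + 1 = f (pr a (K a (seg G n))) + 1 := by rw [zero_add]; exact h4
        exact (add_right_cancel h5).symm
      rcases lt_trichotomy (K a (seg G n)) (g a) with h6 | h6 | h6
      · exact absurd h5 (hg2 a _ h6)
      · exact h6
      · exfalso
        have h7 := (hKs a (seg G n)).2 (g a) h6
        push Not at h7
        have h8 := h3 (pr a (g a)) n (by
          intro h0
          rw [h0] at h7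
          exact absurd h7.1 (by simp))
        rw [hg1, zero_add] at h8
        exact absurd h7.1 (by rw [h8]; simp)
    · rw [if_neg hc] at h
      exact absurd rfl h

theorem rin_world (hG : Segd G) (hB : BCA R G) : IsWorld (RIn R G) where
  const := fun c => sub_rin hG (IsWorld.const c)
  id := sub_rin hG IsWorld.id
  comp := fun f hf g hg => rin_comp hG hf hg
  pair := fun f hf g hg => rin_pair hG hf hg
  fs := sub_rin hG IsWorld.fs
  sn := sub_rin hG IsWorld.sn
  add := sub_rin hG IsWorld.add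
  mul := sub_rin hG IsWorld.mul
  lt := sub_rin hG IsWorld.lt
  mu := fun f hf ht => rin_mu hG hB hf ht
  ind := fun f hf h0 hs x => by
    obtain ⟨P, hP, he⟩ := rin_sig hG hf
    exact (he x).2 (sigG_ind hB hP ((he 0).1 h0)
      (fun x hx => (he (x + 1)).1 (hs x ((he x).2 hx))) x)
  beta := fun f hf n => by
    obtain ⟨ψ, h1, h2, h3⟩ := rin_mono hG hf
    obtain ⟨N, hN⟩ := h1.collect hB (fun a => by
      obtain ⟨n, hn⟩ := h2 a
      exact ⟨n, by rw [hn]; simp⟩) (f := fun j => j) (by fun_prop) n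
    have hr := h1.rc
    have hr' : Rec R (fun i : M => ψ i (seg G N) - 1) := by fun_prop
    obtain ⟨c, hc⟩ := IsWorld.beta _ hr' n
    refine ⟨c, fun i hi => ?_⟩
    rw [hc i hi]
    simp only [dec_self, enc_self]
    rw [h3 i N (hN i hi), add_tsub_cancel_right]

end

theorem stmtEXT : StmtEXT := by
  intro M _ R _ G hG hB
  haveI : HasWorld M := ⟨R, inferInstance⟩
  exact ⟨rin_world hG hB, sub_rin hG, mem_rin hG⟩

theorem stmtSIG : StmtSIG := by
  intro M _ R _ G hG hB g hg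
  haveI : HasWorld M := ⟨R, inferInstance⟩
  obtain ⟨P, hP, he⟩ := rin_sig hG hg
  refine ⟨fun z => enc (P (fs z) (sn z)), ?_, fun a => ?_⟩
  · exact Rec.enc (α := M) (Rec.comp2 (h := P) hP (by fun_prop) (by fun_prop))
  · rw [he]
    simp only [fs_pr, sn_pr, ne_eq, enc_eq_zero, not_not]

end Pool.Agent.OVW
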