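import Pool.Agent.OVW.H.Coll
import Pool.Agent.OVW.H.Seg

/-!
# Block H: Harrington's path
-/

namespace Pool.Agent.OVW

section

variable {M : Type} [Arith M] {R : Set (M → M)} [IsWorld R]

/-- An infinite binary tree of the World. -/
structure ITree (R : Set (M → M)) (T : M → M) : Prop where
  mem : Rec R T
  tree : BTree T
  inf : InfT T

/-- A tree in which no node has length `n`. -/
def NoLv (T : M → M) (n : M) : Prop := ∀ c < kb n, T (pr n c) ≠ 0

theorem noLv_iff [HasWorld M] {T : M → M} (hT : BTree T) (n : M) :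
    NoLv T n ↔ ∀ c, T (pr n c) ≠ 0 := by
  constructor
  · intro h c hc
    obtain ⟨d, hd, hd'⟩ := kb_spec (hT.bin n c hc)
    exact h d hd (hT.ext n c d (fun i hi => (hd' i hi).symm) hc)
  · intro h c _
    exact h c

theorem NoLv.mono [HasWorld M] {T : M → M} (hT : BTree T) {n m : M} (hn : n ≤ m)
    (h : NoLv T n) : NoLv T m := by
  rw [noLv_iff hT] at h ⊢
  intro c hc
  exact h c (hT.down m c n hn hc)

open Classical in
/-- The nodes of `T` along which the conditions `φ (pr a ·)`, `a ∈ U`, are not satisfied. -/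
noncomputable def cutT (T φ : M → M) (b U z : M) : M :=
  if T z = 0 ∧ ∀ a < b, bet U a ≠ 0 → ∀ m ≤ fs z, φ (pr a (rst z m)) = 0 then 0 else 1

theorem cutT_eq {T φ : M → M} {b U z : M} : cutT T φ b U z = 0 ↔
    T z = 0 ∧ ∀ a < b, bet U a ≠ 0 → ∀ m ≤ fs z, φ (pr a (rst z m)) = 0 := by
  unfold cutT
  by_cases h : T z = 0 ∧ ∀ a < b, bet U a ≠ 0 → ∀ m ≤ fs z, φ (pr a (rst z m)) = 0
  · rw [if_pos h]
    exact ⟨fun _ => h, fun _ => rfl⟩
  · rw [if_neg h]
    exact ⟨fun h1 => absurd h1 one_ne_zero, fun h1 => absurd h1 h⟩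

theorem rec_cutT {T φ : M → M} (hT : Rec R T) (hφ : Rec R φ) (b : M) :
    Rec R (fun p : M × M => cutT T φ b p.1 p.2) := by
  unfold cutT
  fun_prop

theorem rst_congr {n c c' m : M} (h : ∀ i < n, bet c i = bet c' i) (hm : m ≤ n) (k k' : M) :
    rst (pr k c) m = rst (pr k' c') m := by
  unfold rst
  rw [sn_pr, sn_pr]
  congr 2
  funext d
  apply propext
  constructor
  · intro h1 i hi
    rw [h1 i hi, h i (hi.trans_le hm)]
  · intro h1 i hi
    rw [h1 i hi, h i (hi.trans_le hm)]

theorem cutT_tree {T φ : M → M} (hT : BTree T) (b U : M) : BTree (cutT T φ b U) where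
  ext := fun n c c' h h1 => by
    rw [cutT_eq] at h1 ⊢
    refine ⟨hT.ext n c c' h h1.1, fun a ha hU m hm => ?_⟩
    rw [fs_pr] at hm
    rw [← rst_congr h hm n n]
    exact h1.2 a ha hU m (by rwa [fs_pr])
  down := fun n c m hm h1 => by
    rw [cutT_eq] at h1 ⊢
    refine ⟨hT.down n c m hm h1.1, fun a ha hU m' hm' => ?_⟩
    rw [fs_pr] at hm'
    rw [rst_congr (n := n) (c' := c) (fun i _ => rfl) (hm'.trans hm) m n]
    exact h1.2 a ha hU m' (by rw [fs_pr]; exact hm'.trans hm)
  bin := fun n c h1 => by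
    rw [cutT_eq] at h1
    exact hT.bin n c h1.1

theorem cutT_mono {T φ : M → M} {b U U' z : M} (h : ∀ a < b, bet U a ≠ 0 → bet U' a ≠ 0)
    (h1 : cutT T φ b U' z = 0) : cutT T φ b U z = 0 := by
  rw [cutT_eq] at h1 ⊢
  exact ⟨h1.1, fun a ha hU => h1.2 a ha (h a ha hU)⟩

theorem rst_code [HasWorld M] {P : M → M} (hP : Segd P) {n c m : M} (hc : Codes P n c)
    (hm : m ≤ n) (k : M) : rst (pr k c) m = seg P m := by
  obtain ⟨d, hd, hd1, -⟩ := seg_spec hP n
  have h1 : rst (pr k c) m = rst (pr n d) m :=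
    rst_congr (fun i hi => by rw [hc i hi, hd1 i hi]) hm k n
  rw [h1, ← hd, rst_seg hP hm]

theorem cutT_path [HasWorld M] {T φ : M → M} {b U : M} {P : M → M} (hP : Segd P)
    (hT : BTree T) : PathT (cutT T φ b U) P ↔ PathT T P ∧
      ∀ a < b, bet U a ≠ 0 → ∀ m, φ (pr a (seg P m)) = 0 := by
  constructor
  · intro h
    refine ⟨fun n c hc => (cutT_eq.1 (h n c hc)).1, fun a ha hU m => ?_⟩
    obtain ⟨c, hc⟩ := hP m
    have h1 := (cutT_eq.1 (h m c hc)).2 a ha hU m (by rw [fs_pr])
    rwa [rst_code hP hc le_rfl] at h1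
  · rintro ⟨h1, h2⟩ n c hc
    rw [cutT_eq]
    refine ⟨h1 n c hc, fun a ha hU m hm => ?_⟩
    rw [fs_pr] at hm
    rw [rst_code hP hc hm]
    exact h2 a ha hU m

/-- The sequence with code `U` and length `b`, with the value `1` at `j`. -/
noncomputable def upd (b U j : M) : M :=
  open Classical in least fun V => ∀ a < b, bet V a = if a = j then 1 else bet U a

theorem upd_ex (hR : IsWorld R) (b U j : M) :
    open Classical in ∃ V, ∀ a < b, bet V a = if a = j then 1 else bet U a := by
  classical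
  exact exists_code (R := R) (f := fun a => if a = j then 1 else bet U a) (by fun_prop) b

theorem rec_upd (b : M) : Rec R (fun p : M × M => upd b p.1 p.2) := by
  classical
  unfold upd
  apply Rec.least (P := fun (p : M × M) V => ∀ a < b, bet V a = if a = p.2 then 1 else bet p.1 a)
  · fun_prop
  · intro p
    exact upd_ex (inferInstance : IsWorld R) _ _ _

theorem upd_spec [HasWorld M] (b U j : M) :
    open Classical in ∀ a < b, bet (upd b U j) a = if a = j then 1 else bet U a := by
  classical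
  obtain ⟨R, hR⟩ := HasWorld.ex (M := M)
  exact (Rec.least_spec (R := R) (P := fun V => ∀ a < b, bet V a = if a = j then 1 else bet U a)
    (by fun_prop) (upd_ex hR b U j)).1

/-- The decision of the conditions `φ (pr a ·)`, `a < b`. -/
theorem decide_step [HasWorld M] {T φ : M → M} (hT : ITree R T) (hφ : Rec R φ) (b : M) :
    ∃ T', ITree R T' ∧ (∀ z, T' z = 0 → T z = 0) ∧ ∃ c, ∀ P, Segd P → PathT T' P →
      ∀ a < b, open Classical in bet c a = if ∃ n, φ (pr a (seg P n)) ≠ 0 then 1 else 0 := by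
  classical
  have hTr := hT.mem
  -- strong collection for the levels
  have hcut := rec_cutT hTr hφ b
  have hA : Rec R (fun p : M × M => NoLv (cutT T φ b p.1) p.2) := by
    show Rec R (fun p : M × M => ∀ c < kb p.2, cutT T φ b p.1 (pr p.2 c) ≠ 0)
    fun_prop
  obtain ⟨N, hN⟩ := strong_coll (P := fun U n => NoLv (cutT T φ b U) n) hA (kb b)
  have hfin : ∀ U, (∀ a < b, bet U a ≤ 1) → (∃ n, NoLv (cutT T φ b U) n) →
      NoLv (cutT T φ b U) N := by
    rintro U hU ⟨n, hn⟩
    obtain ⟨V, hV, hV'⟩ := kb_spec hU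
    have e : ∀ z, cutT T φ b V z = 0 ↔ cutT T φ b U z = 0 := fun z =>
      ⟨cutT_mono fun a ha h => by rwa [hV' a ha], cutT_mono fun a ha h => by rwa [← hV' a ha]⟩
    have e2 : ∀ n, NoLv (cutT T φ b V) n ↔ NoLv (cutT T φ b U) n := by
      intro n
      unfold NoLv
      constructor
      · intro h c hc h1
        exact h c hc ((e _).2 h1)
      · intro h c hc h1
        exact h c hc ((e _).1 h1)
    obtain ⟨m, hm, hm'⟩ := hN V hV ⟨n, (e2 n).2 hn⟩
    exact ((e2 m).1 hm').mono (cutT_tree hT.tree b U) hm.le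
  -- the greedy choice
  have hQ : ∀ k, ∃ U, (∀ a < b, bet U a ≤ 1) ∧ (∀ a < b, k ≤ a → bet U a = 0) ∧
      ¬ NoLv (cutT T φ b U) N ∧ ∀ j < k, j < b → bet U j = 0 →
        NoLv (cutT T φ b (upd b U j)) N := by
    apply Rec.sigma_induction (R := R) (P := fun k U => (∀ a < b, bet U a ≤ 1) ∧
      (∀ a < b, k ≤ a → bet U a = 0) ∧ ¬ NoLv (cutT T φ b U) N ∧
      ∀ j < k, j < b → bet U j = 0 → NoLv (cutT T φ b (upd b U j)) N)
    · have h1 : Rec R (fun U : M => NoLv (cutT T φ b U) N) :=
        Rec.comp2 (h := fun U n => NoLv (cutT T φ b U) n) hA (by fun_prop) (by fun_prop)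
      have h2 := rec_upd (R := R) b
      have h3 : Rec R (fun p : M × M => NoLv (cutT T φ b (upd b p.1 p.2)) N) :=
        Rec.comp (g := fun U : M => NoLv (cutT T φ b U) N) h1 h2
      have h4 : Rec R (fun p : (M × M) × M => NoLv (cutT T φ b (upd b p.1.2 p.2)) N) :=
        Rec.comp (g := fun p : M × M => NoLv (cutT T φ b (upd b p.1 p.2)) N)
          (f := fun p : (M × M) × M => (p.1.2, p.2)) h3 (by fun_prop)
      have h5 : Rec R (fun p : M × M => ¬ NoLv (cutT T φ b p.2) N) :=
        Rec.not (Rec.comp (g := fun U : M => NoLv (cutT T φ b U) N) h1 (by fun_prop))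
      apply Rec.and (by fun_prop)
      apply Rec.and (by fun_prop)
      apply Rec.and h5
      apply Rec.ball (P := fun (p : M × M) j => j < b → bet p.2 j = 0 →
        NoLv (cutT T φ b (upd b p.2 j)) N) (by fun_prop)
      apply Rec.imp (by fun_prop)
      exact Rec.imp (by fun_prop) h4
    · obtain ⟨U, hU⟩ := exists_code (R := R) (f := fun _ => 0) (by fun_prop) b
      refine ⟨U, fun a ha => by rw [hU a ha]; exact zero_le, fun a ha _ => hU a ha, fun h => ?_,
        fun j hj => absurd hj (by simp)⟩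
      obtain ⟨c, hc⟩ := hT.inf N
      rw [noLv_iff (cutT_tree hT.tree b U)] at h
      exact h c (cutT_eq.2 ⟨hc, fun a ha hUa => absurd (hU a ha) hUa⟩)
    · rintro k ⟨U, h1, h2, h3, h4⟩
      by_cases hk : k < b
      · by_cases h5 : NoLv (cutT T φ b (upd b U k)) N
        · refine ⟨U, h1, fun a ha hka => h2 a ha (le_self_add.trans hka), h3,
            fun j hj hjb hUj => ?_⟩
          rcases (lt_succ.1 hj).lt_or_eq with h | h
          · exact h4 j h hjb hUj
          · rw [h]
            exact h5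
        · refine ⟨upd b U k, fun a ha => ?_, fun a ha hka => ?_, h5, fun j hj hjb hUj => ?_⟩
          · rw [upd_spec b U k a ha]
            split_ifs
            · exact le_rfl
            · exact h1 a ha
          · rw [upd_spec b U k a ha, if_neg (succ_le.1 hka).ne']
            exact h2 a ha (le_self_add.trans hka)
          · rw [upd_spec b U k j hjb] at hUj
            by_cases hjk : j = k
            · rw [if_pos hjk] at hUj
              exact absurd hUj one_ne_zero
            · rw [if_neg hjk] at hUj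
              have h6 := h4 j (lt_of_le_of_ne (lt_succ.1 hj) hjk) hjb hUj
              intro c hc h7
              refine h6 c hc (cutT_mono (fun a ha h8 => ?_) h7)
              rw [upd_spec b U j a ha] at h8
              rw [upd_spec b _ j a ha]
              by_cases haj : a = j
              · rw [if_pos haj]
                exact one_ne_zero
              · rw [if_neg haj] at h8 ⊢
                rw [upd_spec b U k a ha]
                by_cases hak : a = k
                · rw [if_pos hak]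
                  exact one_ne_zero
                · rw [if_neg hak]
                  exact h8
      · refine ⟨U, h1, fun a ha hka => h2 a ha (le_self_add.trans hka), h3,
          fun j hj hjb hUj => ?_⟩
        push Not at hk
        exact h4 j (hjb.trans_le hk) hjb hUj
  obtain ⟨U, h1, -, h3, h4⟩ := hQ b
  have htree := cutT_tree (φ := φ) hT.tree b U
  refine ⟨cutT T φ b U, ⟨?_, htree, ?_⟩, fun z hz => (cutT_eq.1 hz).1, ?_⟩
  · exact Rec.comp2 (h := fun U z => cutT T φ b U z) hcut (by fun_prop) (by fun_prop)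
  · intro n
    by_contra hn
    push Not at hn
    exact h3 (hfin U h1 ⟨n, (noLv_iff htree n).2 hn⟩)
  · obtain ⟨c, hc⟩ := exists_code (R := R) (f := fun a => if bet U a = 0 then 1 else 0)
      (by fun_prop) b
    refine ⟨c, fun P hP hPT a ha => ?_⟩
    rw [hc a ha]
    obtain ⟨h5, h6⟩ := (cutT_path hP hT.tree).1 hPT
    by_cases hUa : bet U a = 0
    · rw [if_pos hUa, if_pos]
      by_contra hn
      push Not at hn
      have h7 : PathT (cutT T φ b (upd b U a)) P := by
        rw [cutT_path hP hT.tree]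
        refine ⟨h5, fun a' ha' hU' m => ?_⟩
        rw [upd_spec b U a a' ha'] at hU'
        by_cases haa : a' = a
        · rw [haa]
          exact hn m
        · rw [if_neg haa] at hU'
          exact h6 a' ha' hU' m
      obtain ⟨d, hd⟩ := hP N
      have h8 := h4 a ha ha hUa
      rw [noLv_iff (cutT_tree hT.tree b _)] at h8
      exact h8 d (h7 N d hd)
    · rw [if_neg hUa, if_neg]
      push Not
      exact h6 a ha hUa

open Classical in
/-- The nodes of `T` which are compatible with the sequence with code `d` and length `n`. -/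
noncomputable def stmT (T : M → M) (n d z : M) : M :=
  if T z = 0 ∧ ∀ i < n, i < fs z → bet (sn z) i = bet d i then 0 else 1

theorem stmT_eq {T : M → M} {n d z : M} : stmT T n d z = 0 ↔
    T z = 0 ∧ ∀ i < n, i < fs z → bet (sn z) i = bet d i := by
  unfold stmT
  by_cases h : T z = 0 ∧ ∀ i < n, i < fs z → bet (sn z) i = bet d i
  · rw [if_pos h]
    exact ⟨fun _ => h, fun _ => rfl⟩
  · rw [if_neg h]
    exact ⟨fun h1 => absurd h1 one_ne_zero, fun h1 => absurd h1 h⟩

theorem rec_stmT {T : M → M} (hT : Rec R T) (n : M) :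
    Rec R (fun p : M × M => stmT T n p.1 p.2) := by
  unfold stmT
  fun_prop

theorem stmT_tree {T : M → M} (hT : BTree T) (n d : M) : BTree (stmT T n d) where
  ext := fun k c c' h h1 => by
    rw [stmT_eq] at h1 ⊢
    refine ⟨hT.ext k c c' h h1.1, fun i hi hik => ?_⟩
    rw [fs_pr] at hik
    have h2 := h1.2 i hi (by rwa [fs_pr])
    rw [sn_pr] at h2 ⊢
    rw [← h i hik, h2]
  down := fun k c m hm h1 => by
    rw [stmT_eq] at h1 ⊢
    refine ⟨hT.down k c m hm h1.1, fun i hi him => ?_⟩
    rw [fs_pr] at him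
    have h2 := h1.2 i hi (by rw [fs_pr]; exact him.trans_le hm)
    rw [sn_pr] at h2 ⊢
    exact h2
  bin := fun k c h1 => by
    rw [stmT_eq] at h1
    exact hT.bin k c h1.1

/-- The choice of a stem. -/
theorem stem_step [HasWorld M] {T : M → M} (hT : ITree R T) (n : M) :
    ∃ T', ITree R T' ∧ (∀ z, T' z = 0 → T z = 0) ∧ ∃ d, ∀ m c, T' (pr m c) = 0 →
      ∀ i < n, i < m → bet c i = bet d i := by
  have hTr := hT.mem
  have hs := rec_stmT hTr n
  have hA : Rec R (fun p : M × M => NoLv (stmT T n p.1) p.2) := by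
    show Rec R (fun p : M × M => ∀ c < kb p.2, stmT T n p.1 (pr p.2 c) ≠ 0)
    fun_prop
  by_cases hex : ∃ d < kb n, ∀ m, ¬ NoLv (stmT T n d) m
  · obtain ⟨d, -, hd⟩ := hex
    have htree := stmT_tree hT.tree n d
    refine ⟨stmT T n d, ⟨?_, htree, ?_⟩, fun z hz => (stmT_eq.1 hz).1, d,
      fun m c hc i hi him => ?_⟩
    · exact Rec.comp2 (h := fun d z => stmT T n d z) hs (by fun_prop) (by fun_prop)
    · intro m
      have h1 := hd m
      rw [noLv_iff htree] at h1
      push Not at h1
      exact h1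
    · have h1 := (stmT_eq.1 hc).2 i hi (by rwa [fs_pr])
      rwa [sn_pr] at h1
  · exfalso
    push Not at hex
    obtain ⟨N, hN⟩ := Rec.collection (R := R) (P := fun d m => NoLv (stmT T n d) m) hA hex
    obtain ⟨c, hc⟩ := hT.inf (max N n)
    have hbin := hT.tree.bin _ _ hc
    obtain ⟨d, hd, hd'⟩ := kb_spec (n := n) (c := c) fun i hi =>
      hbin i (hi.trans_le (le_max_right _ _))
    obtain ⟨m, hm, hm'⟩ := hN d hd
    have htree := stmT_tree hT.tree n d
    have h2 := hm'.mono htree ((le_of_lt hm).trans (le_max_left N n))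
    rw [noLv_iff htree] at h2
    exact h2 c (stmT_eq.2 ⟨hc, fun i hi _ => by rw [sn_pr, hd' i hi]⟩)

end

/-- HAR. -/
theorem stmtHAR : StmtHAR := by
  classical
  intro M _ R _ T hM hR hT hB hI
  have hW : HasWorld M := ⟨R, inferInstance⟩
  have hcR : Countable R := hR.to_subtype
  -- the requirements
  have hne : Nonempty ((R × M) ⊕ M) := ⟨Sum.inr 0⟩
  obtain ⟨q, hq⟩ := exists_surjective_nat ((R × M) ⊕ M)
  let Req : (R × M) ⊕ M → (M → M) → Prop := fun r T' => match r with
    | Sum.inl (φ, b) => ∃ c, ∀ P, Segd P → PathT T' P →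
        ∀ a < b, bet c a = if ∃ n, φ.1 (pr a (seg P n)) ≠ 0 then 1 else 0
    | Sum.inr n => ∃ d, ∀ m c, T' (pr m c) = 0 → ∀ i < n, i < m → bet c i = bet d i
  have hstep : ∀ (r : (R × M) ⊕ M) (S : {T' : M → M // ITree R T'}),
      ∃ S' : {T' : M → M // ITree R T'}, (∀ z, S'.1 z = 0 → S.1 z = 0) ∧ Req r S'.1 := by
    rintro (⟨φ, b⟩ | n) ⟨S, hS⟩
    · obtain ⟨T', h1, h2, h3⟩ := decide_step hS (rec_iff.2 φ.2) b
      exact ⟨⟨T', h1⟩, h2, h3⟩
    · obtain ⟨T', h1, h2, h3⟩ := stem_step hS n
      exact ⟨⟨T', h1⟩, h2, h3⟩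
  choose F hF1 hF2 using hstep
  let S : ℕ → {T' : M → M // ITree R T'} := fun i =>
    Nat.rec ⟨T, rec_iff.2 hT, hB, hI⟩ (fun i S => F (q i) S) i
  have hSs : ∀ i, S (i + 1) = F (q i) (S i) := fun _ => rfl
  have hle : ∀ i j, i ≤ j → ∀ z, (S j).1 z = 0 → (S i).1 z = 0 := by
    intro i j hij
    induction j, hij using Nat.le_induction with
    | base => exact fun z h => h
    | succ j _ ih =>
      intro z hz
      apply ih
      rw [hSs] at hz
      exact hF1 _ _ z hz
  have hreq : ∀ r, ∃ i, Req r (S i).1 := by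
    intro r
    obtain ⟨i, rfl⟩ := hq r
    exact ⟨i + 1, hF2 _ _⟩
  have hst : ∀ n : M, ∃ i, ∃ d, ∀ m c, (S i).1 (pr m c) = 0 → ∀ x < n, x < m →
      bet c x = bet d x := fun n => hreq (Sum.inr n)
  choose iS dS hS using hst
  -- the path
  let P : M → M := fun x => bet (dS (x + 1)) x
  have hnode : ∀ (i : ℕ) (n : M), ∃ c, (S i).1 (pr n c) = 0 ∧ Codes P n c := by
    intro i n
    -- for every x a node of length n below the stems of x + 1 and n
    have h1 : ∀ x < n, P x = bet (dS n) x := by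
      intro x hx
      obtain ⟨c, hc⟩ := (S (max (iS n) (iS (x + 1)))).2.inf n
      have h2 := hS n n c (hle _ _ (le_max_left _ _) _ hc) x hx hx
      have h3 := hS (x + 1) n c (hle _ _ (le_max_right _ _) _ hc) x (lt_succ.2 le_rfl) hx
      rw [← h2, h3]
    obtain ⟨c, hc⟩ := (S (max i (iS n))).2.inf n
    refine ⟨c, hle _ _ (le_max_left _ _) _ hc, fun x hx => ?_⟩
    rw [h1 x hx]
    exact hS n n c (hle _ _ (le_max_right _ _) _ hc) x hx hx
  have hSeg : Segd P := fun n => by
    obtain ⟨c, -, hc⟩ := hnode 0 n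
    exact ⟨c, hc⟩
  have hpath : ∀ i, PathT (S i).1 P := by
    intro i n c hc
    obtain ⟨c', h1, h2⟩ := hnode i n
    exact (S i).2.tree.ext n c' c (fun x hx => by rw [h2 x hx, hc x hx]) h1
  refine ⟨P, hSeg, hpath 0, fun φ hφ b => ?_⟩
  obtain ⟨i, c, hc⟩ := hreq (Sum.inl (⟨φ, hφ⟩, b))
  exact ⟨c, fun a ha => hc P hSeg (hpath i) a ha⟩

end Pool.Agent.OVW
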