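import Pool.Agent.OVW.Lib4
import Pool.Agent.OVW.StmtsH

/-!
# Block H: strong collection, bounded comprehension, bounds for the codes of 0-1 sequences
-/

namespace Pool.Agent.OVW

section

variable {M : Type} [Arith M] {R : Set (M → M)} [IsWorld R]
variable {α β : Type} [Cod M α] [Cod M β]

/-- Coding of finite sequences. -/
theorem exists_code {f : M → M} (hf : Rec R f) (n : M) : ∃ c, ∀ i < n, bet c i = f i :=
  IsWorld.beta f hf n

/-- The pigeonhole principle for coded functions. -/
theorem php_code (hR : IsWorld R) : ∀ b σ : M, ¬ ((∀ i < b + 1, bet σ i < b) ∧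
    ∀ i < b + 1, ∀ j < i, bet σ i ≠ bet σ j) := by
  classical
  apply Rec.pi_induction (R := R) (P := fun b σ : M => ¬ ((∀ i < b + 1, bet σ i < b) ∧
    ∀ i < b + 1, ∀ j < i, bet σ i ≠ bet σ j))
  · fun_prop
  · rintro σ ⟨h1, -⟩
    have := h1 0 (by rw [zero_add]; exact one_pos)
    simp at this
  · rintro b ih σ ⟨h1, h2⟩
    obtain ⟨τ, hτ⟩ := exists_code (R := R) (f := fun j => if bet σ j = b then bet σ (b + 1)
      else bet σ j) (by fun_prop) (b + 1)
    have hlt : b + 1 < b + 1 + 1 := lt_succ.2 le_rfl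
    have hne : ∀ i j, i < b + 1 + 1 → j < b + 1 + 1 → i ≠ j → bet σ i ≠ bet σ j := by
      intro i j hi hj hij
      rcases lt_or_gt_of_ne hij with h | h
      · exact (h2 j hj i h).symm
      · exact h2 i hi j h
    refine ih τ ⟨fun i hi => ?_, fun i hi j hj => ?_⟩
    · have hi' : i < b + 1 + 1 := hi.trans hlt
      rw [hτ i hi]
      by_cases h : bet σ i = b
      · rw [if_pos h]
        have h3 : bet σ (b + 1) ≤ b := lt_succ.1 (h1 _ hlt)
        refine lt_of_le_of_ne h3 fun h4 => ?_
        exact hne i (b + 1) hi' hlt hi.ne (h.trans h4.symm)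
      · rw [if_neg h]
        exact lt_of_le_of_ne (lt_succ.1 (h1 _ hi')) h
    · have hj' : j < b + 1 := hj.trans hi
      have hi2 : i < b + 1 + 1 := hi.trans hlt
      have hj2 : j < b + 1 + 1 := hj'.trans hlt
      rw [hτ i hi, hτ j hj']
      by_cases h : bet σ i = b
      · have h' : ¬ bet σ j = b := fun h' => hne i j hi2 hj2 hj.ne' (h.trans h'.symm)
        rw [if_pos h, if_neg h']
        exact hne _ _ hlt hj2 hj'.ne'
      · rw [if_neg h]
        by_cases h' : bet σ j = b
        · rw [if_pos h']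
          exact hne _ _ hi2 hlt hi.ne
        · rw [if_neg h']
          exact hne _ _ hi2 hj2 hj.ne'

/-- Strong collection. -/
theorem strong_coll {P : M → M → Prop} (hP : Rec R (fun p : M × M => P p.1 p.2)) (b : M) :
    ∃ N, ∀ a < b, (∃ n, P a n) → ∃ n < N, P a n := by
  classical
  let Q : M → M × M → Prop := fun c s => (∀ i < c, bet s.1 i < b ∧ ∃ n < s.2, P (bet s.1 i) n) ∧
    ∀ i < c, ∀ j < i, bet s.1 i ≠ bet s.1 j
  have hQ : Rec R (fun p : M × (M × M) => Q p.1 p.2) := by
    show Rec R (fun p : M × (M × M) => (∀ i < p.1, bet p.2.1 i < b ∧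
      ∃ n < p.2.2, P (bet p.2.1 i) n) ∧ ∀ i < p.1, ∀ j < i, bet p.2.1 i ≠ bet p.2.1 j)
    fun_prop
  have hbd : ∀ c s, Q c s → c ≤ b := by
    rintro c s ⟨h1, h2⟩
    by_contra hc
    push Not at hc
    have h3 : b + 1 ≤ c := succ_le.2 hc
    exact php_code (inferInstance : IsWorld R) b s.1
      ⟨fun i hi => (h1 i (hi.trans_le h3)).1, fun i hi j hj => h2 i (hi.trans_le h3) j hj⟩
  obtain ⟨c, ⟨⟨σ, N⟩, h1, h2⟩, hmax⟩ := Rec.gnp_sigma hQ hbd ⟨0, (0, 0),
    ⟨fun i hi => absurd hi (by simp), fun i hi => absurd hi (by simp)⟩⟩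
  refine ⟨N, fun a ha ⟨n, hn⟩ => ?_⟩
  by_cases hex : ∃ i < c, bet σ i = a
  · obtain ⟨i, hi, rfl⟩ := hex
    exact (h1 i hi).2
  · exfalso
    push Not at hex
    obtain ⟨τ, hτ⟩ := exists_code (R := R) (f := fun i => if i < c then bet σ i else a)
      (by fun_prop) (c + 1)
    have h3 : c + 1 ≤ c := by
      refine hmax (c + 1) (τ, max N (n + 1)) ⟨fun i hi => ?_, fun i hi j hj => ?_⟩
      · show bet τ i < b ∧ ∃ m < max N (n + 1), P (bet τ i) m
        rw [hτ i hi]
        by_cases hic : i < c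
        · rw [if_pos hic]
          refine ⟨(h1 i hic).1, ?_⟩
          obtain ⟨m, hm, hm'⟩ := (h1 i hic).2
          exact ⟨m, hm.trans_le (le_max_left _ _), hm'⟩
        · rw [if_neg hic]
          exact ⟨ha, n, (lt_succ.2 le_rfl).trans_le (le_max_right _ _), hn⟩
      · show bet τ i ≠ bet τ j
        have hjc : j < c := hj.trans_le (lt_succ.1 hi)
        rw [hτ i hi, hτ j (hj.trans hi), if_pos hjc]
        by_cases hic : i < c
        · rw [if_pos hic]
          exact h2 i hic j hj
        · rw [if_neg hic]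
          exact (hex j hjc).symm
    exact absurd (succ_le.1 h3) (lt_irrefl _)

end

/-- Bounded comprehension for `Σ₁` sets holds in every World. -/
theorem stmtBC : StmtBC := by
  classical
  intro M _ R _ f hf b
  have hf' : Rec R f := hf
  obtain ⟨N, hN⟩ := strong_coll (R := R) (P := fun a n => f (pr a n) = 0) (by fun_prop) b
  obtain ⟨c, hc⟩ := exists_code (R := R)
    (f := fun a => if ∃ n < N, f (pr a n) = 0 then (1 : M) else 0) (by fun_prop) b
  refine ⟨c, fun a ha => ?_⟩
  rw [hc a ha]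
  by_cases h : ∃ n, f (pr a n) = 0
  · rw [if_pos h, if_pos (hN a ha h)]
  · rw [if_neg h, if_neg fun h' => h (by
      obtain ⟨n, -, hn⟩ := h'
      exact ⟨n, hn⟩)]

section

variable {M : Type} [Arith M] {R : Set (M → M)} [IsWorld R]

/-- The sequence with code `c` and length `n`, followed by `e`. -/
noncomputable def snoc (n c e : M) : M :=
  least fun d => (∀ i < n, bet d i = bet c i) ∧ bet d n = e

theorem snoc_ex (hR : IsWorld R) (n c e : M) :
    ∃ d, (∀ i < n, bet d i = bet c i) ∧ bet d n = e := by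
  classical
  obtain ⟨d, hd⟩ := exists_code (R := R) (f := fun i => if i < n then bet c i else e)
    (by fun_prop) (n + 1)
  refine ⟨d, fun i hi => ?_, ?_⟩
  · rw [hd i (hi.trans (lt_succ.2 le_rfl)), if_pos hi]
  · rw [hd n (lt_succ.2 le_rfl), if_neg (lt_irrefl _)]

theorem rec_snoc : Rec R (fun p : M × M × M => snoc p.1 p.2.1 p.2.2) := by
  unfold snoc
  apply Rec.least (P := fun (p : M × M × M) d =>
    (∀ i < p.1, bet d i = bet p.2.1 i) ∧ bet d p.1 = p.2.2)
  · fun_prop
  · intro p
    exact snoc_ex (inferInstance : IsWorld R) _ _ _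

theorem snoc_spec [HasWorld M] (n c e : M) :
    (∀ i < n, bet (snoc n c e) i = bet c i) ∧ bet (snoc n c e) n = e := by
  obtain ⟨R, hR⟩ := HasWorld.ex (M := M)
  exact (Rec.least_spec (R := R) (P := fun d => (∀ i < n, bet d i = bet c i) ∧ bet d n = e)
    (by fun_prop) (snoc_ex hR n c e)).1

/-- A strict bound for codes of the 0-1 sequences of length `n`. -/
noncomputable def kb (n : M) : M :=
  prec 1 (fun n K => bsup K fun c => max (snoc n c 0) (snoc n c 1)) n

theorem rec_kb_step : Rec R (fun p : M × M =>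
    bsup p.2 fun c => max (snoc p.1 c 0) (snoc p.1 c 1)) := by
  have h := rec_snoc (R := R)
  have h0 : Rec R (fun p : (M × M) × M => snoc p.1.1 p.2 (0 : M)) :=
    Rec.comp (g := fun p : M × M × M => snoc p.1 p.2.1 p.2.2)
      (f := fun p : (M × M) × M => (p.1.1, p.2, (0 : M))) h (by fun_prop)
  have h1 : Rec R (fun p : (M × M) × M => snoc p.1.1 p.2 (1 : M)) :=
    Rec.comp (g := fun p : M × M × M => snoc p.1 p.2.1 p.2.2)
      (f := fun p : (M × M) × M => (p.1.1, p.2, (1 : M))) h (by fun_prop)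
  apply Rec.bsup (f := fun (p : M × M) c => max (snoc p.1 c 0) (snoc p.1 c 1))
  · fun_prop
  · have e : (fun p : (M × M) × M => max (snoc p.1.1 p.2 0) (snoc p.1.1 p.2 1)) =
        open Classical in fun p : (M × M) × M =>
          if snoc p.1.1 p.2 0 ≤ snoc p.1.1 p.2 1 then snoc p.1.1 p.2 1 else snoc p.1.1 p.2 0 := by
      funext p
      by_cases h : snoc p.1.1 p.2 0 ≤ snoc p.1.1 p.2 1
      · rw [if_pos h, max_eq_right h]
      · rw [if_neg h, max_eq_left (le_of_not_ge h)]
    rw [e]
    exact Rec.ite (Rec.le h0 h1) h1 h0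

@[fun_prop] theorem rec_kb : Rec R (fun n : M => kb n) := by
  unfold kb
  apply Rec.prec (a := fun _ : M => (1 : M))
    (g := fun (_ : M) n K => bsup K fun c => max (snoc n c 0) (snoc n c 1)) (n := fun n : M => n)
  · fun_prop
  · exact Rec.comp (g := fun p : M × M => bsup p.2 fun c => max (snoc p.1 c 0) (snoc p.1 c 1))
      (f := fun p : M × M × M => p.2) rec_kb_step (by fun_prop)
  · fun_prop

theorem kb_succ [HasWorld M] (n : M) :
    kb (n + 1) = bsup (kb n) fun c => max (snoc n c 0) (snoc n c 1) := by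
  obtain ⟨R, hR⟩ := HasWorld.ex (M := M)
  exact prec_succ (R := R) _ rec_kb_step n

theorem snoc_lt [HasWorld M] {n c e : M} (hc : c < kb n) (he : e ≤ 1) :
    snoc n c e < kb (n + 1) := by
  obtain ⟨R, hR⟩ := HasWorld.ex (M := M)
  rw [kb_succ]
  have hr : Rec R (fun c : M => max (snoc n c 0) (snoc n c 1)) := by
    have h := rec_snoc (R := R)
    have h0 : Rec R (fun p : M => snoc n p (0 : M)) :=
      Rec.comp (g := fun p : M × M × M => snoc p.1 p.2.1 p.2.2)
        (f := fun p : M => (n, p, (0 : M))) h (by fun_prop)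
    have h1 : Rec R (fun p : M => snoc n p (1 : M)) :=
      Rec.comp (g := fun p : M × M × M => snoc p.1 p.2.1 p.2.2)
        (f := fun p : M => (n, p, (1 : M))) h (by fun_prop)
    have e : (fun p : M => max (snoc n p 0) (snoc n p 1)) =
        open Classical in fun p : M =>
          if snoc n p 0 ≤ snoc n p 1 then snoc n p 1 else snoc n p 0 := by
      funext p
      by_cases h : snoc n p 0 ≤ snoc n p 1
      · rw [if_pos h, max_eq_right h]
      · rw [if_neg h, max_eq_left (le_of_not_ge h)]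
    rw [e]
    exact Rec.ite (Rec.le h0 h1) h1 h0
  have h2 := Rec.lt_bsup hr hc
  refine lt_of_le_of_lt ?_ h2
  rcases cases_succ e with h | ⟨e', h⟩
  · rw [h]
    exact le_max_left _ _
  · have : e = 1 := le_antisymm he (one_le_iff.2 (by rw [h]; simp))
    rw [this]
    exact le_max_right _ _

/-- Every 0-1 sequence of length `n` has a code below `kb n`. -/
theorem kb_spec [HasWorld M] {n c : M} (h : ∀ i < n, bet c i ≤ 1) :
    ∃ d < kb n, ∀ i < n, bet d i = bet c i := by
  obtain ⟨R, hR⟩ := HasWorld.ex (M := M)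
  have hP : ∀ k, k ≤ n → ∃ d < kb k, ∀ i < k, bet d i = bet c i := by
    apply Rec.induction (R := R) (P := fun k => k ≤ n → ∃ d < kb k, ∀ i < k, bet d i = bet c i)
    · fun_prop
    · intro _
      refine ⟨0, ?_, fun i hi => absurd hi (by simp)⟩
      have : kb (0 : M) = 1 := prec_zero _ _
      rw [this]
      exact one_pos
    · intro k ih hk
      obtain ⟨d, hd, hd'⟩ := ih (le_self_add.trans hk)
      obtain ⟨h1, h2⟩ := snoc_spec k d (bet c k)
      refine ⟨snoc k d (bet c k), snoc_lt hd (h k (succ_le.1 hk)), fun i hi => ?_⟩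
      rcases (lt_succ.1 hi).lt_or_eq with h3 | h3
      · rw [h1 i h3, hd' i h3]
      · rw [h3, h2]
  exact hP n le_rfl

end

end Pool.Agent.OVW
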